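import Pool.Agent.W476.Final

/-!
If the matroid of the linear forms is connected, then the dual variety of the reciprocal linear
space is an irreducible hypersurface of degree `2 ^ d` times the beta invariant.
-/

set_option autoImplicit false

namespace Pool.Agent.Results.MP_0aec2a_ag.DualDegree

open MvPolynomial Pool.Agent.W476.DV

/-- The dual variety of the reciprocal linear space of spanning linear forms with connected matroid
is the zero set of an irreducible homogeneous polynomial `F` of degree `2 ^ d * β`; every
homogeneous polynomial of positive degree vanishing on it is a multiple of `F`. The smooth points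
used in the definition of the dual variety are the points of the reciprocal linear space at which
the tangent space of the cone has dimension `d + 1`. -/
theorem result : ∀ (n d : ℕ) (ℓ : Fin (n + 1) → Module.Dual ℂ (Fin (d + 1) → ℂ)),
    Submodule.span ℂ (Set.range ℓ) = ⊤ → MatroidConnected ℓ →
    ∃ F : MvPolynomial (Fin (n + 1)) ℂ, Irreducible F ∧ F.IsHomogeneous F.totalDegree ∧
      (F.totalDegree : ℤ) = 2 ^ d * betaInv ℓ ∧
      dualVariety (recipSpace ℓ) = {u : PP n | eval u.rep F = 0} ∧
      (∀ (m : ℕ) (G : MvPolynomial (Fin (n + 1)) ℂ), 0 < m → G.IsHomogeneous m →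
        (∀ u ∈ dualVariety (recipSpace ℓ), eval u.rep G = 0) → F ∣ G) ∧
      (∀ p : PP n, IsSmoothPt (recipSpace ℓ) p ↔ p ∈ recipSpace ℓ ∧
        Module.finrank ℂ (tangentSpace (recipSpace ℓ) p) = d + 1) :=
  fun _ _ _ hℓ hc => Pool.Agent.W476.main hℓ hc

end Pool.Agent.Results.MP_0aec2a_ag.DualDegree
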